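import Pool.Agent.Helper35.BC.Newton

/-!
# The eigenvalues of an endomorphism whose powers have integral traces (helper35)
-/

set_option autoImplicit false

namespace Pool.Agent.Helper35.TB

open Polynomial Matrix Finset
open Pool.Agent.Helper35.BC

/-- the characteristic polynomial determines the traces of the powers -/
theorem trace_pow_eq {R : Type*} [CommRing R] {n n' : Type*} [Fintype n] [DecidableEq n] [Fintype n']
    [DecidableEq n'] (A : Matrix n n R) (B : Matrix n' n' R)
    (h : A.charpolyRev = B.charpolyRev) (N : ℕ) (hN : 0 < N) :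
    (A ^ N).trace = (B ^ N).trace := by
  induction N using Nat.strong_induction_on with
  | _ N ih =>
    obtain ⟨k, rfl⟩ : ∃ k, N = k + 1 := ⟨N - 1, by omega⟩
    have h1 := newton A k
    have h2 := newton B k
    rw [h] at h1
    rw [h1] at h2
    rw [neg_inj, Finset.sum_range_succ', Finset.sum_range_succ', charpolyRev_coeff_zero, one_mul,
      one_mul, Nat.sub_zero] at h2
    have h3 : ∑ l ∈ range k, B.charpolyRev.coeff (l + 1) * (A ^ (k + 1 - (l + 1))).trace =
        ∑ l ∈ range k, B.charpolyRev.coeff (l + 1) * (B ^ (k + 1 - (l + 1))).trace := by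
      refine Finset.sum_congr rfl fun l hl => ?_
      have hl' := Finset.mem_range.1 hl
      rw [ih (k + 1 - (l + 1)) (by omega) (by omega)]
    rw [h3] at h2
    exact add_left_cancel h2

/-- the roots of the characteristic polynomial as a family -/
theorem exists_family {L : Type*} [Field L] [IsAlgClosed L] {n : Type*} [Fintype n] [DecidableEq n]
    (A : Matrix n n L) : ∃ a : n → L, A.charpoly = ∏ i, (X - C (a i)) := by
  have h1 : A.charpoly.Splits := IsAlgClosed.splits _
  have h2 : A.charpoly.roots.card = Fintype.card n := by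
    rw [← A.charpoly_natDegree_eq_dim]
    exact h1.natDegree_eq_card_roots.symm
  obtain ⟨l, hl⟩ := Quot.exists_rep A.charpoly.roots
  change (l : Multiset L) = _ at hl
  have h3 : l.length = Fintype.card n := by rw [← h2, ← hl, Multiset.coe_card]
  let e : n ≃ Fin l.length := (Fintype.equivFin n).trans (finCongr h3.symm)
  refine ⟨fun i => l.get (e i), ?_⟩
  have h4 : A.charpoly = (A.charpoly.roots.map (fun a => X - C a)).prod := by
    conv_lhs => rw [h1.eq_prod_roots, A.charpoly_monic.leadingCoeff, map_one, one_mul]
  rw [h4, ← hl, Multiset.map_coe, Multiset.prod_coe]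
  rw [Equiv.prod_comp e (fun j => X - C (l.get j))]
  rw [← List.prod_ofFn]
  congr 1
  refine List.ext_get (by simp) fun n h1 h2 => ?_
  simp

/-- If the traces of the powers lie in a valuation ring `S`, in which `1, ..., dim V` are units, then
the eigenvalues, with multiplicities, are a family of elements of `S`. -/
theorem exists_roots {L : Type} [Field L] [IsAlgClosed L] [CharZero L] (S : ValuationSubring L)
    {V : Type} [AddCommGroup V] [Module L V] [FiniteDimensional L V] (F : Module.End L V)
    (hk : ∀ k : ℕ, 0 < k → k ≤ Module.finrank L V → ((k : L))⁻¹ ∈ S)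
    (ht : ∀ N : ℕ, 0 < N → LinearMap.trace L V (F ^ N) ∈ S) :
    ∃ a : Fin (Module.finrank L V) → L, (∀ i, a i ∈ S) ∧
      (∀ α, F.HasEigenvalue α → ∃ i, a i = α) ∧
      ∀ N, 0 < N → LinearMap.trace L V (F ^ N) = ∑ i, a i ^ N := by
  set b := Module.finBasis L V with hb
  set A := LinearMap.toMatrix b b F with hA
  have htr : ∀ N, LinearMap.trace L V (F ^ N) = (A ^ N).trace := by
    intro N
    rw [LinearMap.trace_eq_matrix_trace L b, LinearMap.toMatrix_pow]
  obtain ⟨a, ha⟩ := exists_family A
  have hcp : A.charpolyRev = (Matrix.diagonal a).charpolyRev := by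
    rw [← Matrix.reverse_charpoly, ← Matrix.reverse_charpoly, ha, Matrix.charpoly_diagonal]
  -- the coefficients of the characteristic polynomial
  have hco : ∀ k, A.charpolyRev.coeff k ∈ S := by
    intro k
    induction k using Nat.strong_induction_on with
    | _ k ih =>
      rcases k with _ | k
      · rw [charpolyRev_coeff_zero]
        exact S.one_mem
      by_cases hkn : Module.finrank L V < k + 1
      · rw [charpolyRev_coeff_eq_zero A (by simpa using hkn)]
        exact S.zero_mem
      have h1 := newton A k
      have h2 : ((k : L) + 1) * A.charpolyRev.coeff (k + 1) ∈ S := by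
        rw [h1]
        refine S.neg_mem _ (S.toSubring.sum_mem fun l hl => S.mul_mem _ _ (ih l ?_) ?_)
        · exact Finset.mem_range.1 hl
        · have hl' := Finset.mem_range.1 hl
          rw [← htr]
          exact ht _ (by omega)
      have h3 : ((k : L) + 1) ≠ 0 := by exact_mod_cast k.succ_ne_zero
      have h4 := hk (k + 1) k.succ_pos (by omega)
      have h5 : A.charpolyRev.coeff (k + 1) =
          (((k + 1 : ℕ) : L))⁻¹ * (((k : L) + 1) * A.charpolyRev.coeff (k + 1)) := by
        rw [← mul_assoc]
        push_cast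
        rw [inv_mul_cancel₀ h3, one_mul]
      rw [h5]
      exact S.mul_mem _ _ h4 h2
  have hco2 : ∀ k, A.charpoly.coeff k ∈ S := by
    intro k
    by_cases hk' : k ≤ A.charpoly.natDegree
    · have h1 : A.charpoly.coeff k = A.charpolyRev.coeff (A.charpoly.natDegree - k) := by
        rw [← Matrix.reverse_charpoly, Polynomial.coeff_reverse, Polynomial.revAt_le (by omega),
          Nat.sub_sub_self hk']
      rw [h1]
      exact hco _
    · rw [Polynomial.coeff_eq_zero_of_natDegree_lt (by omega)]
      exact S.zero_mem
  have hroot : ∀ α, A.charpoly.IsRoot α → α ∈ S := by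
    intro α hα
    have hint : IsIntegral S α := by
      have hl : A.charpoly ∈ Polynomial.lifts (algebraMap S L) := by
        rw [Polynomial.lifts_iff_coeff_lifts]
        intro n
        exact ⟨⟨_, hco2 n⟩, rfl⟩
      obtain ⟨g, hg, -, hgm⟩ := Polynomial.lifts_and_degree_eq_and_monic hl A.charpoly_monic
      refine ⟨g, hgm, ?_⟩
      rw [Polynomial.eval₂_eq_eval_map, hg]
      exact hα
    obtain ⟨y, hy⟩ := IsIntegrallyClosed.isIntegral_iff.1 hint
    rw [← hy]
    exact y.2
  refine ⟨a, fun i => hroot _ ?_, ?_, ?_⟩
  · rw [ha, Polynomial.IsRoot, Polynomial.eval_prod]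
    exact Finset.prod_eq_zero (Finset.mem_univ i) (by simp)
  · intro α hα
    have h1 := (Module.End.hasEigenvalue_iff_isRoot_charpoly F α).1 hα
    rw [← LinearMap.charpoly_toMatrix F b, ← hA, ha, Polynomial.IsRoot, Polynomial.eval_prod,
      Finset.prod_eq_zero_iff] at h1
    obtain ⟨i, -, hi⟩ := h1
    refine ⟨i, ?_⟩
    rw [Polynomial.eval_sub, Polynomial.eval_X, Polynomial.eval_C, sub_eq_zero] at hi
    exact hi.symm
  · intro N hN
    rw [htr, trace_pow_eq A _ hcp N hN, Matrix.diagonal_pow, Matrix.trace_diagonal]
    rfl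

end Pool.Agent.Helper35.TB
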