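import Pool.Agent.Helper73.TB.Defs
import Pool.Agent.Helper43.BC.U

/-!
# The number of points over the fields with `Q ^ N` elements, `Q = (p ^ e) ^ (2 * j)` (helper35)
-/

set_option autoImplicit false

namespace Pool.Agent.Helper35.TB

open Polynomial
open Pool.Agent.Helper9.SS
open Pool.Agent.Helper73.TB

theorem sum_aux {p : ℕ} {O L : Type} [Field O] [Field L] {e j d N : ℕ} {A B : O[X]}
    {g : Matrix (Fin d) (Fin d) ℤ}
    (h : (surfCount ((p ^ e) ^ (2 * j * N)) A B : ℤ) =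
        (((p : ℤ) ^ e) ^ (2 * j * N)) ^ 2 +
          ((p : ℤ) ^ e) ^ (2 * j * N) * ((g ^ (2 * j * N)).trace - 1) +
        (((p : ℤ) ^ e) ^ (2 * j * N) -
          curveCount ((p ^ e) ^ (2 * j * N)) (A.coeff 0) (B.coeff 0)) +
        (((p : ℤ) ^ e) ^ (2 * j * N) -
          curveCount ((p ^ e) ^ (2 * j * N)) (A.coeff 4) (B.coeff 6))) :
      (surfCount ((p ^ (e * (2 * j))) ^ N) A B : L) =
        (((p ^ (e * (2 * j)) : ℕ) : L) ^ N) ^ 2 +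
        ((p ^ (e * (2 * j)) : ℕ) : L) ^ N * ((((g ^ (2 * j)) ^ N).trace : ℤ) - 1) +
        (((p ^ (e * (2 * j)) : ℕ) : L) ^ N -
          curveCount ((p ^ (e * (2 * j))) ^ N) (A.coeff 0) (B.coeff 0)) +
        (((p ^ (e * (2 * j)) : ℕ) : L) ^ N -
          curveCount ((p ^ (e * (2 * j))) ^ N) (A.coeff 4) (B.coeff 6)) := by
  have e1 : (p ^ e) ^ (2 * j * N) = (p ^ (e * (2 * j))) ^ N := by
    rw [← pow_mul, ← pow_mul]
    congr 1
    ring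
  have e2 : ((p : ℤ) ^ e) ^ (2 * j * N) = (((p ^ (e * (2 * j)) : ℕ) : ℤ)) ^ N := by
    have := congrArg (Nat.cast : ℕ → ℤ) e1
    push_cast at this ⊢
    exact this
  rw [e1, e2, pow_mul g] at h
  have h2 := congrArg (Int.cast : ℤ → L) h
  push_cast at h2 ⊢
  exact h2

/-- the power `g = g₀ ^ (2 * j)` of the matrix of `Towers.shioda` -/
theorem sum_at {p : ℕ} {O L : Type} [Field O] [Field L] (T : Towers p O L) {e j : ℕ} {A B : O[X]}
    (he : 0 < e) (hj : 0 < j) (hR : IsRational A B) (hA : IsOver (p ^ e) A B) :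
    ∃ (d m : ℕ) (g : Matrix (Fin d) (Fin d) ℤ), 0 < m ∧ ¬ 16 ∣ m ∧
      (∀ o : ℕ, m ∣ (2 * j) * o → g ^ o = 1) ∧ ∀ N : ℕ, 0 < N →
      (surfCount ((p ^ (e * (2 * j))) ^ N) A B : L) =
        (((p ^ (e * (2 * j)) : ℕ) : L) ^ N) ^ 2 +
        ((p ^ (e * (2 * j)) : ℕ) : L) ^ N * (((g ^ N).trace : ℤ) - 1) +
        (((p ^ (e * (2 * j)) : ℕ) : L) ^ N -
          curveCount ((p ^ (e * (2 * j))) ^ N) (A.coeff 0) (B.coeff 0)) +
        (((p ^ (e * (2 * j)) : ℕ) : L) ^ N -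
          curveCount ((p ^ (e * (2 * j))) ^ N) (A.coeff 4) (B.coeff 6)) := by
  obtain ⟨d, m, g, hm, h16, hg, h⟩ := T.shioda e A B he hR hA
  refine ⟨d, m, g ^ (2 * j), hm, h16, ?_, ?_⟩
  · rintro o ⟨k, hk⟩
    rw [← pow_mul, hk, pow_mul, hg, one_pow]
  · intro N hN
    exact sum_aux (h (2 * j * N) (Nat.mul_pos (Nat.mul_pos two_pos hj) hN))

/-- the same with an odd order, if `4 ∣ j` -/
theorem sum_at_odd {p : ℕ} {O L : Type} [Field O] [Field L] (T : Towers p O L) {e j : ℕ} {A B : O[X]}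
    (he : 0 < e) (hj : 0 < j) (h4 : 4 ∣ j) (hR : IsRational A B) (hA : IsOver (p ^ e) A B) :
    ∃ (d o : ℕ) (g : Matrix (Fin d) (Fin d) ℤ), Odd o ∧ g ^ o = 1 ∧ ∀ N : ℕ, 0 < N →
      (surfCount ((p ^ (e * (2 * j))) ^ N) A B : L) =
        (((p ^ (e * (2 * j)) : ℕ) : L) ^ N) ^ 2 +
        ((p ^ (e * (2 * j)) : ℕ) : L) ^ N * (((g ^ N).trace : ℤ) - 1) +
        (((p ^ (e * (2 * j)) : ℕ) : L) ^ N -
          curveCount ((p ^ (e * (2 * j))) ^ N) (A.coeff 0) (B.coeff 0)) +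
        (((p ^ (e * (2 * j)) : ℕ) : L) ^ N -
          curveCount ((p ^ (e * (2 * j))) ^ N) (A.coeff 4) (B.coeff 6)) := by
  obtain ⟨d, m, g, hm, h16, hg, h⟩ := T.shioda e A B he hR hA
  have h8 : 8 ∣ 2 * j := by
    obtain ⟨i, rfl⟩ := h4
    exact ⟨i, by ring⟩
  obtain ⟨o, ho, hgo⟩ := Pool.Agent.Helper43.BC.pow_odd h16 hg h8
  exact ⟨d, o, g ^ (2 * j), ho, hgo, fun N hN =>
    sum_aux (h (2 * j * N) (Nat.mul_pos (Nat.mul_pos two_pos hj) hN))⟩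

end Pool.Agent.Helper35.TB
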